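import Pool.Agent.Y589.EFinal

/-!
# In an extension by an Easton product, for all sets of symbols there is a sufficient set of boards
-/

namespace Pool.Agent.Results.MP_e811a4_lc.EastonDetermined

open Pool.Agent.Y589.Boards

/-- `EastonFn` is the Easton product, over all ordinals `i`, of the forcings adding
`2 ^ 2 ^ ℶ_{ω i}` functions from `(ℶ_{ω i})⁺` to `(ℶ_{ω i})⁺`. For every nonempty set `L` there is
a nonempty set `K` such that every condition forces that, for every set `S` of sequences of
elements of `L`, the game `GS_L(S, K)` is determined. -/
theorem result (L : Type) (hL : Nonempty L) : ∃ K : Type, Nonempty K ∧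
    ∀ p : EastonFn, p ∈ AllDetermined EastonFn K L :=
  exists_boards hL

end Pool.Agent.Results.MP_e811a4_lc.EastonDetermined
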